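import Pool.Agent.ASE.Stmts7

/-!
# Squad ASE, row GID: the identity (G)
-/

open scoped BigOperators

noncomputable section

namespace Pool.Agent.PP.SE.H72

open Pool.Agent.PP Pool.Agent.PP.SO Pool.Agent.PP.SE

theorem sum_units' {ℓ : ℕ} [Fact ℓ.Prime] (g : ZMod ℓ → ZMod ℓ) (h0 : g 0 = 0) :
    ∑ u : (ZMod ℓ)ˣ, g u = ∑ a, g a := by
  classical
  rw [← Finset.sum_image (s := Finset.univ) (g := fun u : (ZMod ℓ)ˣ => (u : ZMod ℓ)) (f := g)]
  · refine Finset.sum_subset (Finset.subset_univ _) ?_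
    intro x _ hx
    by_cases h : x = 0
    · rw [h, h0]
    · exact absurd (Finset.mem_image.2 ⟨Units.mk0 x h, Finset.mem_univ _, rfl⟩) hx
  · intro u _ v _ huv
    exact Units.ext huv

open Classical in
theorem gid (lt1 : SO.LT1Stmt) (gxa : GxaStmt) : GidStmt := by
  intro ℓ _ V Γ I _ _ _ _ _ _ ρ P Z F FF N Y s₀ h hP hFF hF hH hX c d hc hd φ ψ
  have hT := fun e => lt1 ℓ V Γ ρ FF _ h hF hH e c d hc hd φ ψ
  have hG := fun e => gxa ℓ V Γ I ρ P Z hF.od e c d φ ψ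
  obtain ⟨n, hn⟩ : ∃ n : ZMod ℓ, n = Fintype.card Γ := ⟨_, rfl⟩
  obtain ⟨f₀, hf₀⟩ : ∃ f₀ : ZMod ℓ, f₀ = Fintype.card Γ * s₀ + ∑ a, Z a := ⟨_, rfl⟩
  rw [← hf₀] at hF hH ⊢
  simp only [← hf₀] at hT
  rw [← hn] at hf₀
  rw [← hn]
  -- the function `T`
  obtain ⟨T, hTd⟩ : ∃ T : Γ → V → ZMod ℓ, T = fun e κ => FF κ * (φ κ * ψ (ρ e⁻¹ κ)) -
      ∑ a, Z a * (φ (P a κ) * ψ (ρ e⁻¹ (P a κ))) := ⟨_, rfl⟩
  have hTF : ∀ (e : Γ) (κ : V), F κ * (φ κ * ψ (ρ e⁻¹ κ)) -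
      (∑ a, if P a κ = κ then 0 else Z a * (φ (P a κ) * ψ (ρ e⁻¹ (P a κ)))) = T e κ := by
    intro e κ
    rw [hTd]
    by_cases hκ : κ = 0
    · subst hκ
      simp
    · have e1 := hFF.2 κ hκ
      have e2 : ∑ a, Z a * (φ (P a κ) * ψ (ρ e⁻¹ (P a κ))) =
          (∑ a, if P a κ = κ then 0 else Z a * (φ (P a κ) * ψ (ρ e⁻¹ (P a κ)))) +
          (∑ a, if P a κ = κ then Z a else 0) * (φ κ * ψ (ρ e⁻¹ κ)) := by
        rw [Finset.sum_mul, ← Finset.sum_add_distrib]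
        refine Finset.sum_congr rfl fun a _ => ?_
        by_cases ha : P a κ = κ
        · rw [if_pos ha, if_pos ha, ha]
          ring
        · rw [if_neg ha, if_neg ha]
          ring
      show _ = FF κ * (φ κ * ψ (ρ e⁻¹ κ)) - ∑ a, Z a * (φ (P a κ) * ψ (ρ e⁻¹ (P a κ)))
      rw [e2, e1]
      ring
  have hTs : ∀ (e : Γ) (t : ZMod ℓ) (κ : V), t ≠ 0 → T e (t • κ) = t ^ 2 * T e κ := by
    intro e t κ ht
    rw [hTd]
    show FF (t • κ) * (φ (t • κ) * ψ (ρ e⁻¹ (t • κ))) -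
      ∑ a, Z a * (φ (P a (t • κ)) * ψ (ρ e⁻¹ (P a (t • κ)))) = t ^ 2 * (FF κ *
      (φ κ * ψ (ρ e⁻¹ κ)) - ∑ a, Z a * (φ (P a κ) * ψ (ρ e⁻¹ (P a κ))))
    rw [hF.fs t κ ht, mul_sub, Finset.mul_sum, map_smul, map_smul, map_smul, smul_eq_mul,
      smul_eq_mul]
    congr 1
    · ring
    · refine Finset.sum_congr rfl fun a _ => ?_
      rw [map_smul, map_smul, map_smul, map_smul, smul_eq_mul, smul_eq_mul]
      ring
  -- one pair of units
  have hPs : ∀ (a : I) (t : ZMod ℓ) (v : V), t ≠ 0 → (P a (t • v) = t • v ↔ P a v = v) := by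
    intro a t v ht
    rw [map_smul]
    constructor
    · intro h1
      exact smul_right_injective V ht h1
    · intro h1
      rw [h1]
  have key : ∀ t s' : (ZMod ℓ)ˣ, N (t • c) ((t * s') • d) * (φ c * ψ d) -
      (∑ a, if P a c = c then 0 else Y a (t • P a c) ((t * s') • d) * (φ (P a c) * ψ d)) -
      (∑ a, if P a d = d then 0 else Y a ((t * s') • P a d) (t • c) * (φ c * ψ (P a d))) =
      ∑ e : Γ, (s' : ZMod ℓ)⁻¹ * T e (c + (s' : ZMod ℓ) • ρ e d) := by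
    intro t s'
    have ht : (t : ZMod ℓ) ≠ 0 := t.ne_zero
    have hs' : (s' : ZMod ℓ) ≠ 0 := s'.ne_zero
    have hts : (t : ZMod ℓ) * s' ≠ 0 := mul_ne_zero ht hs'
    have e1 := hX.n1 φ ψ ((t : ZMod ℓ) • c) (((t : ZMod ℓ) * s') • d) (smul_ne_zero ht hc)
      (smul_ne_zero hts hd)
    have e2 : ∀ e : Γ, (F ((t : ZMod ℓ) • c + ρ e (((t : ZMod ℓ) * s') • d)) *
        (φ ((t : ZMod ℓ) • c + ρ e (((t : ZMod ℓ) * s') • d)) *
          ψ (ρ e⁻¹ ((t : ZMod ℓ) • c) + ((t : ZMod ℓ) * s') • d)) -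
        ∑ a, if P a ((t : ZMod ℓ) • c + ρ e (((t : ZMod ℓ) * s') • d)) =
          (t : ZMod ℓ) • c + ρ e (((t : ZMod ℓ) * s') • d) then 0 else
          Z a * (φ (P a ((t : ZMod ℓ) • c + ρ e (((t : ZMod ℓ) * s') • d))) *
            ψ (ρ e⁻¹ (P a ((t : ZMod ℓ) • c + ρ e (((t : ZMod ℓ) * s') • d)))))) =
        (t : ZMod ℓ) ^ 2 * T e (c + (s' : ZMod ℓ) • ρ e d) := by
      intro e
      have e3 : ρ e⁻¹ ((t : ZMod ℓ) • c) + ((t : ZMod ℓ) * s') • d =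
          ρ e⁻¹ ((t : ZMod ℓ) • c + ρ e (((t : ZMod ℓ) * s') • d)) := by
        rw [map_add]
        congr 1
        have : ρ e⁻¹ (ρ e (((t : ZMod ℓ) * s') • d)) = (ρ e⁻¹ * ρ e) (((t : ZMod ℓ) * s') • d) :=
          rfl
        rw [this, ← map_mul, inv_mul_cancel, map_one]
        rfl
      have e4 : (t : ZMod ℓ) • c + ρ e (((t : ZMod ℓ) * s') • d) =
          (t : ZMod ℓ) • (c + (s' : ZMod ℓ) • ρ e d) := by
        rw [map_smul, smul_add, mul_smul]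
      rw [e3, hTF, e4, hTs e _ _ ht]
    rw [Finset.sum_congr rfl fun e _ => e2 e, ← Finset.mul_sum] at e1
    have e5 : (∑ a, if P a ((t : ZMod ℓ) • c) = (t : ZMod ℓ) • c then 0 else
        Y a (P a ((t : ZMod ℓ) • c)) (((t : ZMod ℓ) * s') • d) * (φ (P a ((t : ZMod ℓ) • c)) *
          ψ (((t : ZMod ℓ) * s') • d))) = ((t : ZMod ℓ) ^ 2 * s') *
        (∑ a, if P a c = c then 0 else Y a (t • P a c) ((t * s') • d) * (φ (P a c) * ψ d)) := by
      rw [Finset.mul_sum]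
      refine Finset.sum_congr rfl fun a _ => ?_
      by_cases ha : P a c = c
      · rw [if_pos ha, if_pos ((hPs a _ c ht).2 ha), mul_zero]
      · rw [if_neg ha, if_neg (fun h1 => ha ((hPs a _ c ht).1 h1)), map_smul, map_smul, map_smul,
          smul_eq_mul, smul_eq_mul, Units.smul_def t, Units.smul_def (t * s'), Units.val_mul]
        ring
    have e6 : (∑ a, if P a (((t : ZMod ℓ) * s') • d) = ((t : ZMod ℓ) * s') • d then 0 else
        Y a (P a (((t : ZMod ℓ) * s') • d)) ((t : ZMod ℓ) • c) * (φ ((t : ZMod ℓ) • c) *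
          ψ (P a (((t : ZMod ℓ) * s') • d)))) = ((t : ZMod ℓ) ^ 2 * s') *
        (∑ a, if P a d = d then 0 else Y a ((t * s') • P a d) (t • c) * (φ c * ψ (P a d))) := by
      rw [Finset.mul_sum]
      refine Finset.sum_congr rfl fun a _ => ?_
      by_cases ha : P a d = d
      · rw [if_pos ha, if_pos ((hPs a _ d hts).2 ha), mul_zero]
      · rw [if_neg ha, if_neg (fun h1 => ha ((hPs a _ d hts).1 h1)), map_smul, map_smul, map_smul,
          smul_eq_mul, smul_eq_mul, Units.smul_def t, Units.smul_def (t * s'), Units.val_mul]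
        ring
    rw [e5, e6, map_smul, map_smul, smul_eq_mul, smul_eq_mul] at e1
    rw [← Finset.mul_sum, Units.smul_def t c, Units.smul_def (t * s') d, Units.val_mul]
    rw [eq_inv_mul_iff_mul_eq₀ hs']
    have e7 : (t : ZMod ℓ) ^ 2 ≠ 0 := pow_ne_zero _ ht
    apply mul_left_cancel₀ e7
    rw [← e1]
    simp only [Units.smul_def, Units.val_mul]
    ring
  -- the left side
  have h1 : ∑ t : (ZMod ℓ)ˣ, ∑ s' : (ZMod ℓ)ˣ, N (t • c) ((t * s') • d) * (φ c * ψ d) =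
      (n * (F c + F d) - n ^ 2 * s₀) * (φ c * ψ d) := by
    rw [hn, ← hX.n2 c d hc hd, Finset.sum_mul]
    refine Finset.sum_congr rfl fun t _ => ?_
    rw [Finset.sum_mul]
    exact Equiv.sum_comp (Equiv.mulLeft t) (fun s => N (t • c) (s • d) * (φ c * ψ d))
  have hpp : ∀ (a : I) (v : V), P a (P a v) = P a v := by
    intro a v
    have := congrArg (fun A : Module.End (ZMod ℓ) V => A v) (hP.pp a)
    exact this
  have h2 : ∑ t : (ZMod ℓ)ˣ, ∑ s' : (ZMod ℓ)ˣ,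
      (∑ a, if P a c = c then 0 else Y a (t • P a c) ((t * s') • d) * (φ (P a c) * ψ d)) =
      n * (φ (∑ a, Z a • P a c) * ψ d) - n * ((∑ a, if P a c = c then Z a else 0) *
        (φ c * ψ d)) := by
    have e1 : ∑ t : (ZMod ℓ)ˣ, ∑ s' : (ZMod ℓ)ˣ,
        (∑ a, if P a c = c then 0 else Y a (t • P a c) ((t * s') • d) * (φ (P a c) * ψ d)) =
        ∑ a, ∑ t : (ZMod ℓ)ˣ, ∑ s' : (ZMod ℓ)ˣ, (if P a c = c then 0 else
          Y a (t • P a c) ((t * s') • d) * (φ (P a c) * ψ d)) := by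
      rw [Finset.sum_comm' (s := (Finset.univ : Finset I)) (t := fun _ => Finset.univ)
        (t' := Finset.univ) (s' := fun _ => Finset.univ) (by simp)]
      refine Finset.sum_congr rfl fun t _ => ?_
      rw [Finset.sum_comm]
    rw [e1, map_sum, Finset.sum_mul, Finset.sum_mul, Finset.mul_sum, Finset.mul_sum,
      ← Finset.sum_sub_distrib]
    refine Finset.sum_congr rfl fun a _ => ?_
    by_cases ha : P a c = c
    · simp only [if_pos ha, Finset.sum_const_zero]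
      rw [map_smul, ha, smul_eq_mul]
      ring
    · simp only [if_neg ha]
      have e2 : ∑ t : (ZMod ℓ)ˣ, ∑ s' : (ZMod ℓ)ˣ, Y a (t • P a c) ((t * s') • d) *
          (φ (P a c) * ψ d) = (n * Z a) * (φ (P a c) * ψ d) := by
        rw [hn, ← hX.n3 a (P a c) d (hpp a c) hd, Finset.sum_mul]
        refine Finset.sum_congr rfl fun t _ => ?_
        rw [Finset.sum_mul]
        exact Equiv.sum_comp (Equiv.mulLeft t)
          (fun s => Y a (t • P a c) (s • d) * (φ (P a c) * ψ d))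
      rw [e2, map_smul, smul_eq_mul]
      ring
  have h3 : ∑ t : (ZMod ℓ)ˣ, ∑ s' : (ZMod ℓ)ˣ,
      (∑ a, if P a d = d then 0 else Y a ((t * s') • P a d) (t • c) * (φ c * ψ (P a d))) =
      n * (φ c * ψ (∑ a, Z a • P a d)) - n * ((∑ a, if P a d = d then Z a else 0) *
        (φ c * ψ d)) := by
    have e1 : ∑ t : (ZMod ℓ)ˣ, ∑ s' : (ZMod ℓ)ˣ,
        (∑ a, if P a d = d then 0 else Y a ((t * s') • P a d) (t • c) * (φ c * ψ (P a d))) =
        ∑ a, ∑ t : (ZMod ℓ)ˣ, ∑ s' : (ZMod ℓ)ˣ, (if P a d = d then 0 else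
          Y a ((t * s') • P a d) (t • c) * (φ c * ψ (P a d))) := by
      rw [Finset.sum_comm' (s := (Finset.univ : Finset I)) (t := fun _ => Finset.univ)
        (t' := Finset.univ) (s' := fun _ => Finset.univ) (by simp)]
      refine Finset.sum_congr rfl fun t _ => ?_
      rw [Finset.sum_comm]
    rw [e1, map_sum, Finset.mul_sum, Finset.sum_mul, Finset.mul_sum, Finset.mul_sum,
      ← Finset.sum_sub_distrib]
    refine Finset.sum_congr rfl fun a _ => ?_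
    by_cases ha : P a d = d
    · simp only [if_pos ha, Finset.sum_const_zero]
      rw [map_smul, ha, smul_eq_mul]
      ring
    · simp only [if_neg ha]
      have e2 : ∑ t : (ZMod ℓ)ˣ, ∑ s' : (ZMod ℓ)ˣ, Y a ((t * s') • P a d) (t • c) *
          (φ c * ψ (P a d)) = (n * Z a) * (φ c * ψ (P a d)) := by
        rw [hn, ← hX.n3 a (P a d) c (hpp a d) hc, Finset.sum_mul]
        have e3 : ∀ t : (ZMod ℓ)ˣ, ∑ s' : (ZMod ℓ)ˣ, Y a ((t * s') • P a d) (t • c) *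
            (φ c * ψ (P a d)) = ∑ s : (ZMod ℓ)ˣ, Y a (s • P a d) (t • c) *
            (φ c * ψ (P a d)) := fun t => Equiv.sum_comp (Equiv.mulLeft t)
          (fun s => Y a (s • P a d) (t • c) * (φ c * ψ (P a d)))
        rw [Finset.sum_congr rfl fun t _ => e3 t, Finset.sum_comm]
        refine Finset.sum_congr rfl fun t _ => ?_
        rw [Finset.sum_mul]
      rw [e2, map_smul, smul_eq_mul]
      ring
  -- the right side
  have h4 : ∑ t : (ZMod ℓ)ˣ, ∑ s' : (ZMod ℓ)ˣ,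
      ∑ e : Γ, (s' : ZMod ℓ)⁻¹ * T e (c + (s' : ZMod ℓ) • ρ e d) =
      - ∑ e : Γ, ((f₀ - FF c - FF d) * (φ (ρ e d) * ψ (ρ e⁻¹ c) + φ c * ψ d) +
        h c (ρ e d) * φ c * ψ (ρ e⁻¹ c) + h d (ρ e⁻¹ c) * φ (ρ e d) * ψ d +
        ∑ a, Z a * (φ (P a c) * ψ (ρ e⁻¹ (P a (ρ e d))) +
          φ (P a (ρ e d)) * ψ (ρ e⁻¹ (P a c)))) := by
    have e1 : ∑ s' : (ZMod ℓ)ˣ, ∑ e : Γ, (s' : ZMod ℓ)⁻¹ * T e (c + (s' : ZMod ℓ) • ρ e d) =
        ∑ e : Γ, ((f₀ - FF c - FF d) * (φ (ρ e d) * ψ (ρ e⁻¹ c) + φ c * ψ d) +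
        h c (ρ e d) * φ c * ψ (ρ e⁻¹ c) + h d (ρ e⁻¹ c) * φ (ρ e d) * ψ d +
        ∑ a, Z a * (φ (P a c) * ψ (ρ e⁻¹ (P a (ρ e d))) +
          φ (P a (ρ e d)) * ψ (ρ e⁻¹ (P a c)))) := by
      rw [Finset.sum_comm]
      refine Finset.sum_congr rfl fun e _ => ?_
      rw [sum_units' (fun s => s⁻¹ * T e (c + s • ρ e d)) (by rw [inv_zero, zero_mul])]
      have e2 : ∀ s : ZMod ℓ, s⁻¹ * T e (c + s • ρ e d) =
          s⁻¹ * (FF (c + s • ρ e d) * (φ (c + s • ρ e d) * ψ (ρ e⁻¹ c + s • d))) -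
          s⁻¹ * ∑ a, Z a * (φ (P a (c + s • ρ e d)) * ψ (ρ e⁻¹ (P a (c + s • ρ e d)))) := by
        intro s
        rw [hTd]
        have e3 : ρ e⁻¹ c + s • d = ρ e⁻¹ (c + s • ρ e d) := by
          rw [map_add, map_smul]
          congr 2
          have : ρ e⁻¹ (ρ e d) = (ρ e⁻¹ * ρ e) d := rfl
          rw [this, ← map_mul, inv_mul_cancel, map_one]
          rfl
        rw [e3]
        ring
      rw [Finset.sum_congr rfl fun s _ => e2 s, Finset.sum_sub_distrib, hT e, hG e]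
      ring
    rw [Finset.sum_congr rfl fun t _ => e1, Finset.sum_const, Finset.card_univ,
      ZMod.card_units, nsmul_eq_mul, Nat.cast_sub (Fact.out : ℓ.Prime).one_le,
      CharP.cast_eq_zero, Nat.cast_one, zero_sub, neg_one_mul]
  have h5 : ∑ t : (ZMod ℓ)ˣ, ∑ s' : (ZMod ℓ)ˣ, (N (t • c) ((t * s') • d) * (φ c * ψ d) -
      (∑ a, if P a c = c then 0 else Y a (t • P a c) ((t * s') • d) * (φ (P a c) * ψ d)) -
      (∑ a, if P a d = d then 0 else Y a ((t * s') • P a d) (t • c) * (φ c * ψ (P a d)))) =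
      ∑ t : (ZMod ℓ)ˣ, ∑ s' : (ZMod ℓ)ˣ,
        ∑ e : Γ, (s' : ZMod ℓ)⁻¹ * T e (c + (s' : ZMod ℓ) • ρ e d) :=
    Finset.sum_congr rfl fun t _ => Finset.sum_congr rfl fun s' _ => key t s'
  simp only [Finset.sum_sub_distrib] at h5
  rw [h1, h2, h3, h4] at h5
  have h6 : ∑ e : Γ, ((f₀ - FF c - FF d) * (φ (ρ e d) * ψ (ρ e⁻¹ c) + φ c * ψ d) +
        h c (ρ e d) * φ c * ψ (ρ e⁻¹ c) + h d (ρ e⁻¹ c) * φ (ρ e d) * ψ d +
        ∑ a, Z a * (φ (P a c) * ψ (ρ e⁻¹ (P a (ρ e d))) +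
          φ (P a (ρ e d)) * ψ (ρ e⁻¹ (P a c)))) =
      ∑ e : Γ, ((f₀ - FF c - FF d) * φ (ρ e d) * ψ (ρ e⁻¹ c) + h c (ρ e d) * φ c * ψ (ρ e⁻¹ c) +
      h d (ρ e⁻¹ c) * φ (ρ e d) * ψ d) + n * ((f₀ - FF c - FF d) * (φ c * ψ d)) +
      ∑ e : Γ, ∑ a, Z a * (φ (P a c) * ψ (ρ e⁻¹ (P a (ρ e d))) +
          φ (P a (ρ e d)) * ψ (ρ e⁻¹ (P a c))) := by
    have e1 : n * ((f₀ - FF c - FF d) * (φ c * ψ d)) =
        ∑ _e : Γ, (f₀ - FF c - FF d) * (φ c * ψ d) := by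
      rw [Finset.sum_const, Finset.card_univ, nsmul_eq_mul, hn]
    rw [e1, ← Finset.sum_add_distrib, ← Finset.sum_add_distrib]
    refine Finset.sum_congr rfl fun e _ => ?_
    ring
  rw [h6] at h5
  have h7 := hFF.2 c hc
  have h8 := hFF.2 d hd
  rw [h7, h8] at h5 ⊢
  linear_combination h5 - n * (φ c * ψ d) * hf₀

end Pool.Agent.PP.SE.H72
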