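import Pool.Agent.ASE.Stmts7

/-!
# Squad ASE, row GSC: the absolutely irreducible case
-/

open scoped BigOperators

noncomputable section

namespace Pool.Agent.PP.SE.H72

open Pool.Agent.PP Pool.Agent.PP.SO Pool.Agent.PP.SE

/-- the average of an operator is half of its trace -/
theorem avg_tr {ℓ : ℕ} [Fact ℓ.Prime] {V Γ : Type} [AddCommGroup V] [Module (ZMod ℓ) V]
    [Group Γ] [Fintype Γ] (ρ : Γ →* Module.End (ZMod ℓ) V)
    (hrk : Module.finrank (ZMod ℓ) V = 2)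
    (hA : ∀ A : Module.End (ZMod ℓ) V, ∃ a : ZMod ℓ, ∑ e : Γ, ρ e * A * ρ e⁻¹ = a • 1)
    (A : Module.End (ZMod ℓ) V) :
    (2 : ZMod ℓ) • ∑ e : Γ, ρ e * A * ρ e⁻¹ =
      ((Fintype.card Γ : ZMod ℓ) * LinearMap.trace (ZMod ℓ) V A) • 1 := by
  obtain ⟨a, ha⟩ := hA A
  have hfin : Module.Finite (ZMod ℓ) V := Module.finite_of_finrank_pos (by omega)
  have h4 : (2 : ZMod ℓ) * a = (Fintype.card Γ : ZMod ℓ) * LinearMap.trace (ZMod ℓ) V A := by
    have h5 := congrArg (LinearMap.trace (ZMod ℓ) V) ha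
    rw [map_sum, map_smul, LinearMap.trace_one, hrk] at h5
    have h6 : ∀ e : Γ, LinearMap.trace (ZMod ℓ) V (ρ e * A * ρ e⁻¹) =
        LinearMap.trace (ZMod ℓ) V A := by
      intro e
      rw [LinearMap.trace_mul_cycle, ← map_mul, inv_mul_cancel, map_one, one_mul]
    rw [Finset.sum_congr rfl (fun e _ => h6 e), Finset.sum_const, Finset.card_univ,
      nsmul_eq_mul] at h5
    rw [h5, smul_eq_mul]
    push_cast
    ring
  rw [ha, smul_smul, h4]

theorem gsc (lav : SO.LAvStmt) : GscStmt := by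
  intro ℓ _ V Γ I _ _ _ _ _ _ ρ P Z FF s₀ h hP hF hH hGG hA
  have hav := lav ℓ V Γ ρ hF.od hF.rk hA
  have key : ∀ (lam mu : V →ₗ[ZMod ℓ] ZMod ℓ) (c d : V),
      (2 : ZMod ℓ) * ∑ e : Γ, lam (ρ e⁻¹ c) * mu (ρ e d) =
        (Fintype.card Γ : ZMod ℓ) * lam d * mu c := by
    intro lam mu c d
    have h1 := congrArg mu (hav lam c d)
    rw [map_smul, map_smul, map_sum, smul_eq_mul, smul_eq_mul] at h1
    rw [← h1]
    congr 1
    apply Finset.sum_congr rfl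
    intro e _
    rw [map_smul, smul_eq_mul]
  have hnt : Nontrivial V := Module.nontrivial_of_finrank_pos (R := ZMod ℓ)
    (by rw [hF.rk]; norm_num)
  obtain ⟨c, hc⟩ := exists_ne (0 : V)
  obtain ⟨φ, hφ⟩ : ∃ φ : V →ₗ[ZMod ℓ] ZMod ℓ, φ c ≠ 0 := by
    by_contra hcon
    push Not at hcon
    exact hc ((Module.forall_dual_apply_eq_zero_iff (ZMod ℓ) c).1 hcon)
  have h0 := hGG c c hc hc φ φ
  obtain ⟨n, hn⟩ : ∃ n : ZMod ℓ, n = Fintype.card Γ := ⟨_, rfl⟩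
  have hn0 : n ≠ 0 := by rw [hn]; exact hF.cp
  obtain ⟨f, hf⟩ : ∃ f : ZMod ℓ, f = Fintype.card Γ * s₀ + ∑ a, Z a := ⟨_, rfl⟩
  rw [← hf] at h0 hF hH
  rw [← hn] at hf
  rw [← hn] at h0
  simp only [← hn] at key
  have hcc : h c c = FF c - f := (hH c hc).1
  -- (1)
  have hQ : (2 : ZMod ℓ) * φ (∑ a, Z a • P a c) = (∑ a, Z a) * φ c := by
    have e1 := avg_tr ρ hF.rk hA (∑ a, Z a • P a)
    have e2 : ∀ e : Γ, ρ e * (∑ a, Z a • P a) * ρ e⁻¹ = ∑ a, Z a • P a := by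
      intro e
      rw [hP.qc e, mul_assoc, ← map_mul, mul_inv_cancel, map_one, mul_one]
    rw [Finset.sum_congr rfl (fun e _ => e2 e), Finset.sum_const, Finset.card_univ, map_sum] at e1
    have e3 : ∑ a, LinearMap.trace (ZMod ℓ) V (Z a • P a) = ∑ a, Z a := by
      refine Finset.sum_congr rfl fun a _ => ?_
      rw [map_smul, hP.tr a, smul_eq_mul, mul_one]
    rw [e3] at e1
    have e4 := congrArg φ (LinearMap.congr_fun e1 c)
    have e5 : ((2 : ZMod ℓ) • Fintype.card Γ • ∑ a, Z a • P a) c =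
        ((2 : ZMod ℓ) * n) • ∑ a, Z a • P a c := by
      rw [hn, mul_smul, LinearMap.smul_apply, Nat.cast_smul_eq_nsmul, LinearMap.smul_apply,
        LinearMap.sum_apply]
      rfl
    have e6 : (((Fintype.card Γ : ZMod ℓ) * ∑ a, Z a) • (1 : Module.End (ZMod ℓ) V)) c =
        (n * ∑ a, Z a) • c := by
      rw [hn]
      rfl
    rw [e5, e6, map_smul, map_smul, smul_eq_mul, smul_eq_mul] at e4
    apply mul_left_cancel₀ hn0
    linear_combination e4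
  -- (2)
  have k1 := key φ φ c c
  have k2 := key φ (h c) c c
  have k3 := key (h c) φ c c
  rw [hcc] at k2 k3
  have e2 : (2 : ZMod ℓ) * ∑ e : Γ, ((f - FF c - FF c) * φ (ρ e c) * φ (ρ e⁻¹ c)
      + h c (ρ e c) * φ c * φ (ρ e⁻¹ c) + h c (ρ e⁻¹ c) * φ (ρ e c) * φ c)
      = (f - FF c - FF c) * (2 * ∑ e : Γ, φ (ρ e⁻¹ c) * φ (ρ e c))
        + φ c * (2 * ∑ e : Γ, φ (ρ e⁻¹ c) * h c (ρ e c))
        + φ c * (2 * ∑ e : Γ, h c (ρ e⁻¹ c) * φ (ρ e c)) := by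
    rw [Finset.mul_sum, Finset.mul_sum, Finset.mul_sum, Finset.mul_sum, Finset.mul_sum,
      Finset.mul_sum, Finset.mul_sum, ← Finset.sum_add_distrib, ← Finset.sum_add_distrib]
    apply Finset.sum_congr rfl
    intro e _
    ring
  rw [k1, k2, k3] at e2
  -- (3)
  have hpp : ∀ (a : I) (v : V), P a (P a v) = P a v := by
    intro a v
    have := congrArg (fun A : Module.End (ZMod ℓ) V => A v) (hP.pp a)
    exact this
  have h3a : (2 : ZMod ℓ) * ∑ e : Γ, ∑ a, Z a * (φ (P a c) * φ (ρ e⁻¹ (P a (ρ e c)))) =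
      n * φ c * φ (∑ a, Z a • P a c) := by
    rw [Finset.sum_comm, Finset.mul_sum, map_sum, Finset.mul_sum]
    refine Finset.sum_congr rfl fun a _ => ?_
    have e3 := avg_tr ρ hF.rk hA (P a)
    rw [hP.tr a, mul_one, ← hn] at e3
    have e4 : ∑ e : Γ, ρ e * P a * ρ e⁻¹ = ∑ e : Γ, ρ e⁻¹ * P a * ρ e := by
      rw [← Equiv.sum_comp (Equiv.inv Γ) (fun e => ρ e⁻¹ * P a * ρ e)]
      refine Finset.sum_congr rfl fun e _ => ?_
      simp
    rw [e4] at e3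
    have e5 := congrArg φ (LinearMap.congr_fun e3 c)
    have e6 : ((2 : ZMod ℓ) • ∑ e : Γ, ρ e⁻¹ * P a * ρ e) c =
        (2 : ZMod ℓ) • ∑ e : Γ, ρ e⁻¹ (P a (ρ e c)) := by
      rw [LinearMap.smul_apply, LinearMap.sum_apply]
      rfl
    have e7 : (n • (1 : Module.End (ZMod ℓ) V)) c = n • c := rfl
    rw [e6, e7, map_smul, map_smul, map_sum, smul_eq_mul, smul_eq_mul] at e5
    have e8 : ∑ e : Γ, Z a * (φ (P a c) * φ (ρ e⁻¹ (P a (ρ e c)))) =
        Z a * (φ (P a c) * ∑ e : Γ, φ (ρ e⁻¹ (P a (ρ e c)))) := by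
      rw [Finset.mul_sum, Finset.mul_sum]
    rw [e8, map_smul, smul_eq_mul]
    linear_combination (Z a * φ (P a c)) * e5
  have h3b : (2 : ZMod ℓ) * ∑ e : Γ, ∑ a, Z a * (φ (P a (ρ e c)) * φ (ρ e⁻¹ (P a c))) =
      n * φ c * φ (∑ a, Z a • P a c) := by
    rw [Finset.sum_comm, Finset.mul_sum, map_sum, Finset.mul_sum]
    refine Finset.sum_congr rfl fun a _ => ?_
    have e3 := key φ (φ ∘ₗ P a) (P a c) c
    simp only [LinearMap.comp_apply] at e3
    rw [hpp] at e3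
    have e8 : ∑ e : Γ, Z a * (φ (P a (ρ e c)) * φ (ρ e⁻¹ (P a c))) =
        Z a * ∑ e : Γ, φ (ρ e⁻¹ (P a c)) * φ (P a (ρ e c)) := by
      rw [Finset.mul_sum]
      refine Finset.sum_congr rfl fun e _ => ?_
      ring
    rw [e8, map_smul, smul_eq_mul]
    linear_combination (Z a) * e3
  have h3c : ∑ e : Γ, ∑ a, Z a * (φ (P a c) * φ (ρ e⁻¹ (P a (ρ e c))) +
      φ (P a (ρ e c)) * φ (ρ e⁻¹ (P a c))) =
      ∑ e : Γ, ∑ a, Z a * (φ (P a c) * φ (ρ e⁻¹ (P a (ρ e c)))) +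
      ∑ e : Γ, ∑ a, Z a * (φ (P a (ρ e c)) * φ (ρ e⁻¹ (P a c))) := by
    rw [← Finset.sum_add_distrib]
    refine Finset.sum_congr rfl fun e _ => ?_
    rw [← Finset.sum_add_distrib]
    refine Finset.sum_congr rfl fun a _ => ?_
    ring
  rw [h3c] at h0
  have e9 : n * φ c ^ 2 * (∑ a, Z a - f) = 0 := by
    linear_combination (2 : ZMod ℓ) * h0 - e2 - h3a - h3b + (n * φ c) * hQ
  have hfin : f = ∑ a, Z a := by
    rcases mul_eq_zero.1 e9 with e3 | e3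
    · rcases mul_eq_zero.1 e3 with e4 | e4
      · exact absurd e4 hn0
      · exact absurd (pow_eq_zero_iff two_ne_zero |>.1 e4) hφ
    · exact (sub_eq_zero.1 e3).symm
  rw [hfin] at hf
  have e10 : n * s₀ = 0 := by linear_combination -hf
  exact (mul_eq_zero.1 e10).resolve_left hn0

end Pool.Agent.PP.SE.H72
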