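import Mathlib

/-!
# Squad ASE, row MAT: the integer part
-/

namespace Pool.Agent.PP.SE.H72

/-- case (1), `ℓ ∣ A - 1` -/
theorem int1 {ℓ n m A Q : ℤ} (hℓ : 2 ≤ ℓ) (hm : 1 ≤ m) (hn : 1 ≤ n) (hmn : m * n = ℓ - 1)
    (hc : A ^ 2 ≤ n * Q) (h : ℓ * Q = ℓ + m * (A ^ 2 - 1)) (hd : ℓ ∣ A - 1) :
    Q = 1 ∨ ∃ σ : ℤ, (σ = 1 ∨ σ = -1) ∧ A = σ * n ∧ Q = n := by
  obtain ⟨k, hk⟩ := hd
  have hA2 : A ^ 2 ≤ ℓ * (n - 1) + 1 := by
    have e1 : n * (ℓ * Q) = n * ℓ + (m * n) * (A ^ 2 - 1) := by rw [h]; ring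
    rw [hmn] at e1
    have e2 : ℓ * A ^ 2 ≤ ℓ * (n * Q) := mul_le_mul_of_nonneg_left hc (by linarith)
    nlinarith
  have hnl : n ≤ ℓ - 1 := by nlinarith
  have hA3 : A ^ 2 ≤ (ℓ - 1) ^ 2 := by nlinarith
  have hA4 : |A| ≤ ℓ - 1 := abs_le_of_sq_le_sq hA3 (by linarith)
  obtain ⟨hA5, hA6⟩ := abs_le.mp hA4
  have hk1 : k ≤ 0 := by
    by_contra hcon
    have : 1 ≤ k := by omega
    nlinarith
  have hk2 : -1 ≤ k := by
    by_contra hcon
    have : k ≤ -2 := by omega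
    nlinarith
  have hk3 : k = 0 ∨ k = -1 := by omega
  rcases hk3 with rfl | rfl
  · left
    have hA : A = 1 := by linarith
    subst hA
    have : ℓ * Q = ℓ * 1 := by rw [h]; ring
    exact mul_left_cancel₀ (by omega) this
  · right
    have hA : A = 1 - ℓ := by linarith
    subst hA
    have hn2 : ℓ - 1 ≤ n := by
      by_contra hcon
      have : n - 1 + 1 ≤ ℓ - 2 := by omega
      nlinarith
    have hn3 : n = ℓ - 1 := by omega
    subst hn3
    have hm1 : m = 1 := by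
      have : (m - 1) * (ℓ - 1) = 0 := by linarith
      rcases mul_eq_zero.mp this with h1 | h1
      · omega
      · omega
    subst hm1
    refine ⟨-1, Or.inr rfl, by ring, ?_⟩
    have : ℓ * Q = ℓ * (ℓ - 1) := by rw [h]; ring
    exact mul_left_cancel₀ (by omega) this

/-- case (2), `ℓ ∣ A - n` -/
theorem int2 {ℓ n m A Q : ℤ} (hℓ : 2 ≤ ℓ) (hm : 1 ≤ m) (hn : 1 ≤ n) (hmn : m * n = ℓ - 1)
    (hc : A ^ 2 ≤ n * Q) (h : ℓ * Q = n + m * A ^ 2) (hd : ℓ ∣ A - n) :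
    Q = 1 ∨ ∃ σ : ℤ, (σ = 1 ∨ σ = -1) ∧ A = σ * n ∧ Q = n := by
  obtain ⟨k, hk⟩ := hd
  have hA2 : A ^ 2 ≤ n ^ 2 := by
    have e1 : n * (ℓ * Q) = n ^ 2 + (m * n) * A ^ 2 := by rw [h]; ring
    rw [hmn] at e1
    have e2 : ℓ * A ^ 2 ≤ ℓ * (n * Q) := mul_le_mul_of_nonneg_left hc (by linarith)
    nlinarith
  have hnl : n ≤ ℓ - 1 := by nlinarith
  have hA4 : |A| ≤ n := abs_le_of_sq_le_sq hA2 (by linarith)
  obtain ⟨hA5, hA6⟩ := abs_le.mp hA4
  have hk1 : k ≤ 0 := by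
    by_contra hcon
    have : 1 ≤ k := by omega
    nlinarith
  have hk2 : -1 ≤ k := by
    by_contra hcon
    have : k ≤ -2 := by omega
    nlinarith
  have hk3 : k = 0 ∨ k = -1 := by omega
  rcases hk3 with rfl | rfl
  · right
    have hA : A = n := by linarith
    subst hA
    refine ⟨1, Or.inl rfl, by ring, ?_⟩
    have : ℓ * Q = ℓ * A := by
      rw [h]
      linear_combination A * hmn
    exact mul_left_cancel₀ (by omega) this
  · left
    have hA : A = n - ℓ := by linarith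
    have hm1 : m = 1 := by
      by_contra hcon
      have : 2 ≤ m := by omega
      nlinarith
    subst hm1
    have hn3 : n = ℓ - 1 := by linarith
    have hA1 : A = -1 := by rw [hA, hn3]; ring
    rw [hA1, hn3] at h
    have : ℓ * Q = ℓ * 1 := by rw [h]; ring
    exact mul_left_cancel₀ (by omega) this

theorem int_core {ι : Type*} (s : Finset ι) (a : ι → ℤ) {ℓ n m : ℕ} (hp : ℓ.Prime)
    (hmn : m * n = ℓ - 1) (hc : s.card = n)
    (h : (ℓ : ℤ) * ∑ i ∈ s, a i ^ 2 = ℓ + m * ((∑ i ∈ s, a i) ^ 2 - 1) ∨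
      (ℓ : ℤ) * ∑ i ∈ s, a i ^ 2 = n + m * (∑ i ∈ s, a i) ^ 2) :
    (∃ i ∈ s, (a i = 1 ∨ a i = -1) ∧ ∀ j ∈ s, j ≠ i → a j = 0) ∨
      ∃ σ : ℤ, (σ = 1 ∨ σ = -1) ∧ ∀ i ∈ s, a i = σ := by
  have hℓ2 := hp.two_le
  have hm1 : 1 ≤ m := by
    rcases Nat.eq_zero_or_pos m with h0 | h0
    · subst h0; omega
    · exact h0
  have hn1 : 1 ≤ n := by
    rcases Nat.eq_zero_or_pos n with h0 | h0
    · subst h0; omega
    · exact h0
  have hmnZ : (m : ℤ) * n = ℓ - 1 := by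
    have : ((m * n : ℕ) : ℤ) = ((ℓ - 1 : ℕ) : ℤ) := by rw [hmn]
    push_cast [Nat.cast_sub (by omega : 1 ≤ ℓ)] at this
    exact this
  have hcs : (∑ i ∈ s, a i) ^ 2 ≤ (n : ℤ) * ∑ i ∈ s, a i ^ 2 := by
    have := sq_sum_le_card_mul_sum_sq (s := s) (f := a)
    rwa [hc] at this
  have hpZ : Prime (ℓ : ℤ) := Nat.prime_iff_prime_int.mp hp
  set A := ∑ i ∈ s, a i with hA
  set Q := ∑ i ∈ s, a i ^ 2 with hQ
  have key : Q = 1 ∨ ∃ σ : ℤ, (σ = 1 ∨ σ = -1) ∧ A = σ * n ∧ Q = n := by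
    have flip : (Q = 1 ∨ ∃ σ : ℤ, (σ = 1 ∨ σ = -1) ∧ -A = σ * n ∧ Q = n) →
        (Q = 1 ∨ ∃ σ : ℤ, (σ = 1 ∨ σ = -1) ∧ A = σ * n ∧ Q = n) := by
      rintro (h1 | ⟨σ, h1, h2, h3⟩)
      · exact Or.inl h1
      · refine Or.inr ⟨-σ, ?_, by linarith, h3⟩
        rcases h1 with h1 | h1
        · right; rw [h1]
        · left; rw [h1]; ring
    rcases h with h | h
    · have hd : (ℓ : ℤ) ∣ m * ((A - 1) * (A + 1)) := ⟨Q - 1, by linarith⟩
      have hnm : ¬ (ℓ : ℤ) ∣ m := by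
        intro hcon
        have := Int.le_of_dvd (by exact_mod_cast hm1) hcon
        have h2 : (m : ℤ) ≤ ℓ - 1 := by
          have : (1 : ℤ) ≤ n := by exact_mod_cast hn1
          have : (1 : ℤ) ≤ m := by exact_mod_cast hm1
          nlinarith
        linarith
      rcases hpZ.dvd_or_dvd hd with h1 | h1
      · exact absurd h1 hnm
      rcases hpZ.dvd_or_dvd h1 with h2 | h2
      · exact int1 (by exact_mod_cast hℓ2) (by exact_mod_cast hm1) (by exact_mod_cast hn1) hmnZ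
          hcs h h2
      · apply flip
        refine int1 (A := -A) (by exact_mod_cast hℓ2) (by exact_mod_cast hm1)
          (by exact_mod_cast hn1) hmnZ (by rw [neg_sq]; exact hcs) (by rw [neg_sq]; exact h) ?_
        obtain ⟨c, hc'⟩ := h2
        exact ⟨-c, by linarith⟩
    · have hd : (ℓ : ℤ) ∣ (A - n) * (A + n) := by
        refine ⟨A ^ 2 - n * Q, ?_⟩
        have e1 : (n : ℤ) * (ℓ * Q) = n ^ 2 + (m * n) * A ^ 2 := by rw [h]; ring
        rw [hmnZ] at e1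
        linear_combination e1
      rcases hpZ.dvd_or_dvd hd with h2 | h2
      · exact int2 (by exact_mod_cast hℓ2) (by exact_mod_cast hm1) (by exact_mod_cast hn1) hmnZ
          hcs h h2
      · apply flip
        refine int2 (A := -A) (by exact_mod_cast hℓ2) (by exact_mod_cast hm1)
          (by exact_mod_cast hn1) hmnZ (by rw [neg_sq]; exact hcs) (by rw [neg_sq]; exact h) ?_
        obtain ⟨c, hc'⟩ := h2
        exact ⟨-c, by linarith⟩
  rcases key with h1 | ⟨σ, h1, h2, h3⟩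
  · left
    obtain ⟨i, hi, hi0⟩ : ∃ i ∈ s, a i ≠ 0 := by
      by_contra hcon
      push Not at hcon
      have : Q = 0 := Finset.sum_eq_zero fun i hi => by rw [hcon i hi]; ring
      omega
    classical
    have hsplit : a i ^ 2 + ∑ j ∈ s.erase i, a j ^ 2 = 1 := by
      rw [← h1, hQ, Finset.add_sum_erase s (fun j => a j ^ 2) hi]
    have hnn : 0 ≤ ∑ j ∈ s.erase i, a j ^ 2 := Finset.sum_nonneg fun j _ => sq_nonneg _
    have hpos : 0 < a i ^ 2 := by positivity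
    have hai : a i ^ 2 = 1 := by omega
    have hz : ∑ j ∈ s.erase i, a j ^ 2 = 0 := by omega
    refine ⟨i, hi, sq_eq_one_iff.mp hai, ?_⟩
    intro j hj hji
    have := (Finset.sum_eq_zero_iff_of_nonneg (fun j _ => sq_nonneg (a j))).mp hz j
      (Finset.mem_erase.mpr ⟨hji, hj⟩)
    exact pow_eq_zero_iff (two_ne_zero) |>.mp this
  · right
    refine ⟨σ, h1, ?_⟩
    have hσ2 : σ ^ 2 = 1 := by rcases h1 with rfl | rfl <;> norm_num
    have hz : ∑ i ∈ s, (a i - σ) ^ 2 = 0 := by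
      have : ∑ i ∈ s, (a i - σ) ^ 2 = Q - 2 * σ * A + n * σ ^ 2 := by
        rw [hQ, hA, Finset.mul_sum, ← Finset.sum_sub_distrib]
        have hn' : (n : ℤ) * σ ^ 2 = ∑ i ∈ s, σ ^ 2 := by
          rw [Finset.sum_const, hc, nsmul_eq_mul]
        rw [hn', ← Finset.sum_add_distrib]
        refine Finset.sum_congr rfl fun i _ => by ring
      rw [this, h2, h3]
      linear_combination (-(n : ℤ)) * hσ2
    intro i hi
    have := (Finset.sum_eq_zero_iff_of_nonneg (fun j _ => sq_nonneg (a j - σ))).mp hz i hi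
    have := (pow_eq_zero_iff (two_ne_zero)).mp this
    linarith

end Pool.Agent.PP.SE.H72
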