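import Pool.Agent.ASE.Stmts2
import Pool.Agent.Helper72_ASE.MATi

/-!
# Squad ASE, row MAT
-/

open scoped BigOperators

noncomputable section

namespace Pool.Agent.PP.SE.H72

open Pool.Agent.Helper51_AWC Pool.Agent.Helper79_WRA Pool.Agent.PP Pool.Agent.PP.KF
open Pool.Agent.PP.K9 Pool.Agent.PP.K9.H97 Pool.Agent.PP.H75 Pool.Agent.PP.T3 Pool.Agent.PP.SO
open Pool.Agent.PP.SD Pool.Agent.PP.SE

attribute [local instance] Ideal.Quotient.field

section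

variable {V₀ G : Type} [CommGroup V₀] [Group G] {M : Ideal (integralClosure ℤ ℂ)} [M.IsMaximal]

/-- `rip` depends only on the values at the regular elements and is sesquilinear. -/
theorem rip_sum [Finite G] (ℓ : ℕ) (B : Bk (FF M) V₀ G) (W : Subgroup V₀) {ι : Type*}
    (s : Finset ι) (a : ι → ℤ) (f : ι → G → ℂ) (χ : G → ℂ)
    (h : ∀ g ∈ B.C W, Reg ℓ g → χ g = ∑ i ∈ s, (a i : ℂ) * f i g) :
    rip ℓ B W χ χ = ∑ i ∈ s, ∑ j ∈ s, (a i : ℂ) * (a j : ℂ) * rip ℓ B W (f i) (f j) := by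
  classical
  have hR : ({t : G | t ∈ B.C W ∧ Reg ℓ t}).Finite := Set.toFinite _
  have key : ∀ φ ψ : G → ℂ, rip ℓ B W φ ψ = (Nat.card (B.C W) : ℂ)⁻¹ *
      ∑ t ∈ hR.toFinset, φ t * starRingEnd ℂ (ψ t) := by
    intro φ ψ
    unfold rip
    rw [finsum_mem_eq_finite_toFinset_sum _ hR]
  rw [key]
  have e1 : ∑ t ∈ hR.toFinset, χ t * starRingEnd ℂ (χ t) =
      ∑ t ∈ hR.toFinset, ∑ i ∈ s, ∑ j ∈ s,
        (a i : ℂ) * (a j : ℂ) * (f i t * starRingEnd ℂ (f j t)) := by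
    refine Finset.sum_congr rfl fun t ht => ?_
    obtain ⟨h1, h2⟩ := (Set.Finite.mem_toFinset hR).mp ht
    rw [h t h1 h2, map_sum, Finset.sum_mul_sum]
    refine Finset.sum_congr rfl fun i _ => Finset.sum_congr rfl fun j _ => ?_
    rw [map_mul, map_intCast]
    ring
  rw [e1, Finset.sum_comm]
  rw [Finset.mul_sum]
  refine Finset.sum_congr rfl fun i _ => ?_
  rw [Finset.sum_comm, Finset.mul_sum]
  refine Finset.sum_congr rfl fun j _ => ?_
  rw [key, Finset.mul_sum, Finset.mul_sum, Finset.mul_sum]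
  refine Finset.sum_congr rfl fun t _ => ?_
  ring

/-- the double sum -/
theorem dsum {ι : Type*} [DecidableEq ι] (s : Finset ι) (a : ι → ℤ) (x y : ℂ) :
    ∑ i ∈ s, ∑ j ∈ s, (a i : ℂ) * (a j : ℂ) * ((if i = j then 1 else 0) * x + y) =
      x * ((∑ i ∈ s, a i ^ 2 : ℤ) : ℂ) + y * ((∑ i ∈ s, a i : ℤ) : ℂ) ^ 2 := by
  have e1 : ∀ i ∈ s, ∑ j ∈ s, (a i : ℂ) * (a j : ℂ) * ((if i = j then 1 else 0) * x + y) =
      x * (a i : ℂ) ^ 2 + y * ((a i : ℂ) * ∑ j ∈ s, (a j : ℂ)) := by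
    intro i hi
    have : ∀ j ∈ s, (a i : ℂ) * (a j : ℂ) * ((if i = j then 1 else 0) * x + y) =
        (if i = j then x * ((a i : ℂ) * (a j : ℂ)) else 0) + y * ((a i : ℂ) * (a j : ℂ)) := by
      intro j _
      split_ifs
      · ring
      · ring
    rw [Finset.sum_congr rfl this, Finset.sum_add_distrib, Finset.sum_ite_eq s i, if_pos hi,
      ← Finset.mul_sum, ← Finset.mul_sum]
    ring
  rw [Finset.sum_congr rfl e1, Finset.sum_add_distrib, ← Finset.mul_sum, ← Finset.mul_sum,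
    ← Finset.sum_mul]
  push_cast
  ring

theorem ch_pos {B : Bk (FF M) V₀ G} {W : Subgroup V₀} {χ : G → ℂ} (h : χ ∈ Ch B W) :
    ∃ d : ℕ, 0 < d ∧ χ 1 = d := by
  have h1 : (fun t : B.C W => χ t) ∈ Irr (B.C W) := h.2.1
  obtain ⟨d, hd, e⟩ := irr_one h1
  exact ⟨d, hd, by simpa using e⟩

theorem reg_one (ℓ : ℕ) : Reg ℓ (1 : G) := by
  unfold Reg
  simp

end

theorem mat (str : StrStmt) (xir : XirStmt) (rpv : RpvStmt) (dcr : DcrStmt) (vxm : VxmStmt) :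
    MatStmt := by
  classical
  intro ℓ _ M _ hM hℓ2 V₀ G _ _ _ _ E₀ hF B hB W hW χ hχ
  have hp : ℓ.Prime := Fact.out
  set n := nS E₀ W with hn
  have hn1 : 1 < n := hW.2
  obtain ⟨ν, hν, hχν⟩ := (vxm ℓ M hM hℓ2 V₀ G E₀ hF B hB W hW χ hχ).2.1.2.2.2.1
  have h1k : (fun _ : V₀ => (1 : ℂ)) ∈ lk (kW E₀ W) :=
    ⟨⟨rfl, fun _ _ => by simp⟩, fun _ _ => rfl⟩
  -- the structures
  have hex : ∀ ν ∈ lk (kW E₀ W), ∃ N e O, Lv E₀ B W ν N e O := by
    intro ν hν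
    obtain ⟨c1, c2, c3⟩ := str ℓ M hM hℓ2 V₀ G E₀ hF B hB W hW ν hν
    by_cases hc : nS E₀ W = ℓ - 1
    · have hne : (Iv B W ν).Nonempty := by
        by_contra hcon
        rw [Set.not_nonempty_iff_eq_empty] at hcon
        rw [hcon, Set.ncard_empty, mul_zero] at c1
        have := hp.two_le
        have : nS E₀ W ^ 2 + (ℓ - 1) = 0 := c1.symm
        omega
      obtain ⟨χ₀, hχ₀⟩ := hne
      obtain ⟨e, O, hL, _⟩ := c3 hc χ₀ hχ₀
      exact ⟨_, e, O, hL⟩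
    · obtain ⟨e, O, hL⟩ := c2 hc
      exact ⟨_, e, O, hL⟩
  obtain ⟨N', e', O', hL'⟩ := hex ν hν
  obtain ⟨N, e, O, hL⟩ := hex _ h1k
  obtain ⟨c1, -, -⟩ := str ℓ M hM hℓ2 V₀ G E₀ hF B hB W hW _ h1k
  rw [← hn] at c1
  -- the sets
  have hIfin : (Iv B W (fun _ => 1)).Finite := by
    apply Set.finite_of_ncard_pos
    rcases Nat.eq_zero_or_pos (Iv B W (fun _ => 1)).ncard with h0 | h0
    · rw [h0, mul_zero] at c1
      have := hp.two_le
      omega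
    · exact h0
  set I := hIfin.toFinset with hI
  set P := I.filter (fun ψ => ψ ∈ N) with hP
  set T := I.filter (fun ψ => ψ ∉ N) with hT
  have hPc : P.card = n := by
    have := hL.cN
    rw [hn, ← this, ← Set.ncard_coe_finset]
    congr 1
    ext ψ
    simp [hP, hI]
  have hIc : I.card = (Iv B W (fun _ => 1)).ncard := by
    rw [hI, ← Set.ncard_eq_toFinset_card _ hIfin]
  have hPT : P.card + T.card = I.card := by
    rw [hP, hT]
    exact Finset.card_filter_add_card_filter_not _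
  have hmn : T.card * n = ℓ - 1 := by
    rw [← hIc, ← hPT, hPc] at c1
    have : n * (n + T.card) = n * n + T.card * n := by ring
    rw [this] at c1
    have : n ^ 2 = n * n := by ring
    omega
  set m := T.card with hm
  have hm1 : 1 ≤ m := by
    rcases Nat.eq_zero_or_pos m with h0 | h0
    · rw [h0] at hmn
      have := hp.two_le
      omega
    · exact h0
  -- the decomposition
  obtain ⟨z, hz⟩ := dcr ℓ M hM hℓ2 V₀ G E₀ hF B hB W hW χ hχ
  have hmemP : ∀ ψ ∈ P, ψ ∈ Iv B W (fun _ => 1) ∧ ψ ∈ N := by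
    intro ψ hψ
    rw [hP, Finset.mem_filter, hI, Set.Finite.mem_toFinset] at hψ
    exact hψ
  have hmemT : ∀ ψ ∈ T, ψ ∈ Iv B W (fun _ => 1) ∧ ψ ∉ N := by
    intro ψ hψ
    rw [hT, Finset.mem_filter, hI, Set.Finite.mem_toFinset] at hψ
    exact hψ
  have hesq : ∀ ψ ∈ Iv B W (fun _ => 1), (e ψ : ℂ) * e ψ = 1 := by
    intro ψ hψ
    rcases hL.sg ψ hψ with h | h
    · rw [h]; norm_num
    · rw [h]; norm_num
  have hxi : ∀ ψ ∈ T, ∀ g ∈ B.C W, Reg ℓ g →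
      ∑ θ ∈ P, (e θ : ℂ) * θ g = e ψ * ψ g := by
    intro ψ hψ g hg hr
    obtain ⟨h1, h2⟩ := hmemT ψ hψ
    rw [← xir ℓ M hM hℓ2 V₀ G E₀ hF B hB W hW _ h1k N e O hL ψ h1 h2 g hg hr]
    have hfin : ({χ | χ ∈ Iv B W (fun _ => 1) ∧ χ ∈ N}).Finite :=
      hIfin.subset fun _ h => h.1
    rw [finsum_mem_eq_finite_toFinset_sum _ hfin]
    refine Finset.sum_congr ?_ fun _ _ => rfl
    ext θ
    simp [hP, hI]
  set c : ℤ := ∑ ψ ∈ T, z ψ * e ψ with hc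
  set a : (G → ℂ) → ℤ := fun ψ => z ψ * e ψ + c with ha
  have hdec : ∀ g ∈ B.C W, Reg ℓ g → χ g = ∑ ψ ∈ P, (a ψ : ℂ) * ((e ψ : ℂ) * ψ g) := by
    intro g hg hr
    rw [hz g hg hr, finsum_mem_eq_finite_toFinset_sum _ hIfin, ← hI,
      ← Finset.sum_filter_add_sum_filter_not I (fun ψ => ψ ∈ N), ← hP, ← hT]
    have t1 : ∑ ψ ∈ P, (z ψ : ℂ) * ψ g = ∑ ψ ∈ P, ((z ψ * e ψ : ℤ) : ℂ) * ((e ψ : ℂ) * ψ g) := by
      refine Finset.sum_congr rfl fun ψ hψ => ?_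
      have := hesq ψ (hmemP ψ hψ).1
      push_cast
      linear_combination (-(z ψ : ℂ) * ψ g) * this
    have t2 : ∑ ψ ∈ T, (z ψ : ℂ) * ψ g = (c : ℂ) * ∑ θ ∈ P, (e θ : ℂ) * θ g := by
      rw [hc, Int.cast_sum, Finset.sum_mul]
      refine Finset.sum_congr rfl fun ψ hψ => ?_
      rw [hxi ψ hψ g hg hr]
      have := hesq ψ (hmemT ψ hψ).1
      push_cast
      linear_combination (-(z ψ : ℂ) * ψ g) * this
    rw [t1, t2, Finset.mul_sum, ← Finset.sum_add_distrib]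
    refine Finset.sum_congr rfl fun ψ _ => ?_
    rw [ha]
    push_cast
    ring
  -- the norm
  have hℓ0 : (ℓ : ℂ) ≠ 0 := by exact_mod_cast hp.ne_zero
  have hn0 : (n : ℂ) ≠ 0 := by
    have : n ≠ 0 := by omega
    exact_mod_cast this
  have hm0 : (m : ℂ) ≠ 0 := by
    have : m ≠ 0 := by omega
    exact_mod_cast this
  have hmnC : (m : ℂ) * n = ℓ - 1 := by
    have h1 : m * n + 1 = ℓ := by
      have := hp.two_le
      omega
    have : ((m * n + 1 : ℕ) : ℂ) = ℓ := by rw [h1]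
    push_cast at this
    linear_combination this
  have hripf : ∀ ψ ∈ P, ∀ θ ∈ P,
      rip ℓ B W (fun g => (e ψ : ℂ) * ψ g) (fun g => (e θ : ℂ) * θ g) =
        (if ψ = θ then 1 else 0) * (ℓ : ℂ)⁻¹ + (((n : ℂ) * ℓ ^ 2)⁻¹ - (n * ℓ : ℂ)⁻¹) := by
    intro ψ hψ θ hθ
    obtain ⟨h1, h2⟩ := hmemP ψ hψ
    obtain ⟨h3, h4⟩ := hmemP θ hθ
    have hr := (rpv ℓ M hM hℓ2 V₀ G E₀ hF B hB W hW _ h1k N e O hL ψ h1 θ h3).1 h2 h4
    have hlin : rip ℓ B W (fun g => (e ψ : ℂ) * ψ g) (fun g => (e θ : ℂ) * θ g) =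
        (e ψ : ℂ) * e θ * rip ℓ B W ψ θ := by
      unfold rip
      have : ∀ s : G, (e ψ : ℂ) * ψ s * starRingEnd ℂ ((e θ : ℂ) * θ s) =
          ((e ψ : ℂ) * e θ) * (ψ s * starRingEnd ℂ (θ s)) := by
        intro s
        rw [map_mul, map_intCast]
        ring
      have hRf : ({t : G | t ∈ B.C W ∧ Reg ℓ t}).Finite := Set.toFinite _
      rw [finsum_mem_eq_finite_toFinset_sum _ hRf, finsum_mem_eq_finite_toFinset_sum _ hRf,
        Finset.sum_congr rfl fun s _ => this s, ← Finset.mul_sum]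
      ring
    rw [hlin, hr, ← hn]
    have e1 := hesq ψ h1
    have e2 := hesq θ h3
    have e3 : (e ψ : ℂ) * e θ * (e ψ * e θ) = 1 := by
      linear_combination (e θ : ℂ) * e θ * e1 + e2
    rw [← mul_assoc, e3, one_mul]
    field_simp
    ring
  have hnorm : rip ℓ B W χ χ = (ℓ : ℂ)⁻¹ * ((∑ ψ ∈ P, a ψ ^ 2 : ℤ) : ℂ) +
      (((n : ℂ) * ℓ ^ 2)⁻¹ - (n * ℓ : ℂ)⁻¹) * ((∑ ψ ∈ P, a ψ : ℤ) : ℂ) ^ 2 := by
    rw [rip_sum ℓ B W P a (fun ψ g => (e ψ : ℂ) * ψ g) χ hdec, ← dsum]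
    refine Finset.sum_congr rfl fun ψ hψ => Finset.sum_congr rfl fun θ hθ => ?_
    rw [hripf ψ hψ θ hθ]
  have hrp := rpv ℓ M hM hℓ2 V₀ G E₀ hF B hB W hW ν hν N' e' O' hL' χ hχν χ hχν
  have hesq' : (e' χ : ℂ) * e' χ = 1 := by
    rcases hL'.sg χ hχν with h | h
    · rw [h]; norm_num
    · rw [h]; norm_num
  set Q : ℤ := ∑ ψ ∈ P, a ψ ^ 2 with hQ
  set A : ℤ := ∑ ψ ∈ P, a ψ with hA
  have hint : (ℓ : ℤ) * Q = ℓ + m * (A ^ 2 - 1) ∨ (ℓ : ℤ) * Q = n + m * A ^ 2 := by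
    by_cases hN : χ ∈ N'
    · left
      have hr := hrp.1 hN hN
      rw [hnorm, if_pos rfl, hesq', one_mul, ← hn] at hr
      have h2 : (n : ℂ) * ((ℓ : ℂ) * Q) = n * ℓ + (ℓ - 1) * (A ^ 2 - 1) := by
        field_simp at hr
        have hh : (ℓ : ℂ) * ((n : ℂ) * ((ℓ : ℂ) * Q)) =
            ℓ * (n * ℓ + (ℓ - 1) * (A ^ 2 - 1)) := by
          linear_combination (ℓ : ℂ) * hr
        exact mul_left_cancel₀ hℓ0 hh
      rw [← hmnC] at h2
      have h3 : (ℓ : ℂ) * Q = ℓ + m * (A ^ 2 - 1) := by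
        apply mul_left_cancel₀ hn0
        linear_combination h2
      exact_mod_cast h3
    · right
      have hr := hrp.2.2 hN hN
      rw [hnorm, hesq', one_mul, ← hn] at hr
      have h2 : (n : ℂ) * ((ℓ : ℂ) * Q) = n * n + (ℓ - 1) * A ^ 2 := by
        field_simp at hr
        have hh : (ℓ : ℂ) * ((n : ℂ) * ((ℓ : ℂ) * Q)) =
            ℓ * (n * n + (ℓ - 1) * A ^ 2) := by
          linear_combination (ℓ : ℂ) * hr
        exact mul_left_cancel₀ hℓ0 hh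
      rw [← hmnC] at h2
      have h3 : (ℓ : ℂ) * Q = n + m * A ^ 2 := by
        apply mul_left_cancel₀ hn0
        linear_combination h2
      exact_mod_cast h3
  -- the conclusion up to the sign
  have hconc : ∃ ψ ∈ Iv B W (fun _ => 1), ∃ ε : ℤ, (ε = 1 ∨ ε = -1) ∧
      ∀ g ∈ B.C W, Reg ℓ g → χ g = ε * ψ g := by
    rcases int_core P a hp hmn hPc hint with ⟨ψ, hψ, h1, h2⟩ | ⟨σ, h1, h2⟩
    · have hψI := (hmemP ψ hψ).1
      refine ⟨ψ, hψI, a ψ * e ψ, ?_, ?_⟩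
      · rcases h1 with h1 | h1 <;> rcases hL.sg ψ hψI with h3 | h3 <;> rw [h1, h3] <;> simp
      · intro g hg hr
        rw [hdec g hg hr, Finset.sum_eq_single ψ]
        · push_cast
          ring
        · intro θ hθ hne
          rw [h2 θ hθ hne]
          simp
        · intro hcon
          exact absurd hψ hcon
    · obtain ⟨ψ, hψ⟩ : T.Nonempty := Finset.card_pos.mp (by omega)
      have hψI := (hmemT ψ hψ).1
      refine ⟨ψ, hψI, σ * e ψ, ?_, ?_⟩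
      · rcases h1 with h1 | h1 <;> rcases hL.sg ψ hψI with h3 | h3 <;> rw [h1, h3] <;> simp
      · intro g hg hr
        rw [hdec g hg hr]
        have : ∑ θ ∈ P, (a θ : ℂ) * ((e θ : ℂ) * θ g) = σ * ∑ θ ∈ P, (e θ : ℂ) * θ g := by
          rw [Finset.mul_sum]
          refine Finset.sum_congr rfl fun θ hθ => ?_
          rw [h2 θ hθ]
        rw [this, hxi ψ hψ g hg hr]
        push_cast
        ring
  obtain ⟨ψ, hψ, ε, hε, hval⟩ := hconc
  refine ⟨ψ, hψ, ?_⟩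
  have hone := hval 1 (B.C W).one_mem (reg_one ℓ)
  obtain ⟨d, hd, hd'⟩ := ch_pos hχ
  obtain ⟨d2, hd2, hd2'⟩ := ch_pos hψ.1
  have hε1 : ε = 1 := by
    rcases hε with h | h
    · exact h
    · exfalso
      rw [hd', hd2', h] at hone
      have : ((d : ℤ) : ℂ) = ((-1 * (d2 : ℤ) : ℤ) : ℂ) := by
        push_cast
        push_cast at hone
        exact hone
      have := Int.cast_injective this
      omega
  intro g hg hr
  rw [hval g hg hr, hε1]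
  push_cast
  ring

end Pool.Agent.PP.SE.H72
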